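import Pool.Agent.W5h13.SK.Tree

set_option autoImplicit false
set_option linter.unusedSectionVars false

/-! # A strong Kurepa tree has an Aronszajn subtree -/

namespace Pool.Agent.W5h13.SK

open Cardinal Set

universe u

variable {K : Type u} [LinearOrder K] [WellFoundedLT K] {T : Type u} [PartialOrder T]

/-- the predecessors in a downward closed subset -/
def subIso {S : Set T} (hS : IsLowerSet S) (t : S) : Iio t ≃o Iio t.1 where
  toFun x := ⟨x.1.1, x.2⟩
  invFun y := ⟨⟨y.1, hS (mem_Iio.1 y.2).le t.2⟩, y.2⟩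
  left_inv _ := rfl
  right_inv _ := rfl
  map_rel_iff' := Iff.rfl

lemma sub_level {S : Set T} (hS : IsLowerSet S) (t : S) (α : K) :
    t ∈ Level S α ↔ t.1 ∈ Level T α := by
  constructor
  · rintro ⟨e⟩
    exact ⟨(subIso hS t).symm.trans e⟩
  · rintro ⟨e⟩
    exact ⟨(subIso hS t).trans e⟩

/-- the cones of the elements of a branch are a base of its neighbourhoods -/
lemma nhd_base [Nonempty K] (b : Branches K T) {O : Set (Branches K T)}
    (hO : @IsOpen _ (branchTop K T) O) (hb : b ∈ O) :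
    ∃ t ∈ b.1, ∀ b' : Branches K T, t ∈ b'.1 → b' ∈ O := by
  have hO' : TopologicalSpace.GenerateOpen {U | ∃ t : T, U = {b : Branches K T | t ∈ b.1}} O := hO
  induction hO' with
  | basic U hU =>
    obtain ⟨t, rfl⟩ := hU
    exact ⟨t, hb, fun b' h => h⟩
  | univ =>
    obtain ⟨t, ht, -⟩ := b.2.meets (Classical.arbitrary K)
    exact ⟨t, ht, fun _ _ => mem_univ _⟩
  | inter U V h1 h2 i1 i2 =>
    obtain ⟨t, ht, ht'⟩ := i1 h1 hb.1
    obtain ⟨s, hs, hs'⟩ := i2 h2 hb.2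
    rcases b.2.chain.total ht hs with h | h
    · exact ⟨s, hs, fun b' hb' => ⟨ht' b' (b'.2.lower h hb'), hs' b' hb'⟩⟩
    · exact ⟨t, ht, fun b' hb' => ⟨ht' b' hb', hs' b' (b'.2.lower h hb')⟩⟩
  | sUnion 𝒰 h i =>
    obtain ⟨U, hU, hbU⟩ := hb
    obtain ⟨t, ht, ht'⟩ := i U hU (h U hU) hbU
    exact ⟨t, ht, fun b' hb' => ⟨U, hU, ht' b' hb'⟩⟩

/-- **A strong `κ`-Kurepa tree, `κ = λ⁺`, has a downward closed subset which is a `κ`-Aronszajn
tree.** -/
theorem converse (lam : Cardinal.{u})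
    (hK : (Order.succ lam).ord = Ordinal.type (α := K) (· < ·)) (hT : IsStrongKurepa K T) :
    ∃ S : Set T, IsLowerSet S ∧ IsAronszajn K S := by
  classical
  have hcard : #K = Order.succ lam := by
    have := congrArg Ordinal.card hK
    rw [card_ord, Ordinal.card_type] at this
    exact this.symm
  have hne : Nonempty K := by
    rw [← mk_ne_zero_iff, hcard]
    exact (Order.bot_lt_succ lam).ne'
  obtain ⟨α0, hα0⟩ : ∃ α0 : K, #(Iio α0) = lam := by
    have h1 : lam.ord < Ordinal.type (α := K) (· < ·) := by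
      rw [← hK]
      exact ord_lt_ord.2 (Order.lt_succ lam)
    obtain ⟨α0, h2⟩ := Ordinal.typein_surj (· < ·) h1
    refine ⟨α0, ?_⟩
    have := congrArg Ordinal.card h2
    rw [card_ord] at this
    exact this
  obtain ⟨f, hf, hsurj⟩ := hT.strong
  let S : Set T := {t | ¬ ∃ s : Iio α0 → Bool, ∀ b : Branches K T, t ∈ b.1 →
    ∀ ξ : Iio α0, f b ξ = s ξ}
  have hS : IsLowerSet S := by
    intro t t' htt ht hex
    obtain ⟨s, hs⟩ := hex
    exact ht ⟨s, fun b hb => hs b (b.2.lower htt hb)⟩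
  refine ⟨S, hS, ⟨?_, ?_, ?_⟩, ?_⟩
  · intro t
    obtain ⟨α, hα⟩ := hT.tree.lev t.1
    exact ⟨α, (sub_level hS t α).2 hα⟩
  · intro α
    by_contra hcon
    have h1 : ∀ t ∈ Level T α, ∃ s : Iio α0 → Bool, ∀ b : Branches K T, t ∈ b.1 →
        ∀ ξ : Iio α0, f b ξ = s ξ := by
      intro t ht
      by_contra hc
      exact hcon ⟨⟨t, hc⟩, (sub_level hS _ α).2 ht⟩
    have h2 : ∀ s : Iio α0 → Bool, ∃ t : Level T α, ∃ b : Branches K T, t.1 ∈ b.1 ∧
        ∀ ξ : Iio α0, f b ξ = s ξ := by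
      intro s
      obtain ⟨b, hb⟩ := hsurj (fun ξ => if h : ξ < α0 then s ⟨ξ, h⟩ else false)
      obtain ⟨t, ht1, ht2⟩ := b.2.meets α
      refine ⟨⟨t, ht2⟩, b, ht1, ?_⟩
      intro ξ
      rw [hb]
      have : (ξ : K) < α0 := ξ.2
      simp [this]
    choose t b hb1 hb2 using h2
    have hinj : Function.Injective t := by
      intro s s' hss
      obtain ⟨s0, hs0⟩ := h1 (t s).1 (t s).2
      funext ξ
      rw [← hb2 s ξ, ← hb2 s' ξ, hs0 _ (hb1 s) ξ, hs0 _ (by rw [hss]; exact hb1 s') ξ]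
    have h3 := mk_le_of_injective hinj
    have h4 := hT.tree.small α
    have h5 : #(Iio α0 → Bool) = 2 ^ lam := by
      simp [hα0]
    rw [h5] at h3
    rw [hcard] at h4
    have h6 : Order.succ lam ≤ 2 ^ lam := Order.succ_le_of_lt (cantor lam)
    exact absurd (h6.trans h3) (not_le.2 h4)
  · intro α
    have : Function.Injective (fun x : Level S α =>
        (⟨x.1.1, (sub_level hS x.1 α).1 x.2⟩ : Level T α)) := by
      intro x y hxy
      have := congrArg Subtype.val hxy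
      exact Subtype.ext (Subtype.ext this)
    exact (mk_le_of_injective this).trans_lt (hT.tree.small α)
  · intro b hb
    have hB : IsBranch K (Subtype.val '' b : Set T) := by
      refine ⟨?_, ?_, ?_⟩
      · rintro _ ⟨x, hx, rfl⟩ _ ⟨y, hy, rfl⟩ _
        exact hb.chain.total hx hy
      · rintro _ y hyx ⟨x, hx, rfl⟩
        exact ⟨⟨y, hS hyx x.2⟩, hb.lower (show (⟨y, hS hyx x.2⟩ : S) ≤ x from hyx) hx, rfl⟩
      · intro α
        obtain ⟨x, hx, hx'⟩ := hb.meets α
        exact ⟨x.1, ⟨x, hx, rfl⟩, (sub_level hS x α).1 hx'⟩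
    let B : Branches K T := ⟨_, hB⟩
    have hopen : @IsOpen _ (branchTop K T) (f ⁻¹' {g | ∀ ξ : Iio α0, g ξ = f B ξ}) := by
      refine (@continuous_def _ _ (branchTop K T) (coneTop K) f).1 hf _ ?_
      exact TopologicalSpace.GenerateOpen.basic _ ⟨α0, fun ξ => f B ξ, rfl⟩
    obtain ⟨t, ⟨x, hx, rfl⟩, ht⟩ := nhd_base B hopen (fun ξ => rfl)
    exact x.2 ⟨fun ξ => f B ξ, fun b' hb' => ht b' hb'⟩

end Pool.Agent.W5h13.SK
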