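import Pool.Agent.W5h13.SK.Fun

set_option autoImplicit false
set_option linter.unusedSectionVars false

/-! # The nodes of the strong Kurepa tree -/

namespace Pool.Agent.W5h13.SK

open Cardinal Set

universe u

/-- The condition defining the nodes of the level `α`.  `(f ξ).1 ≠ none` means that `ξ` belongs to
the closed set of the node, `(f ξ).1 = some x` is then the part below `ξ` of the revealed set, and
`(f ξ).2` is a node of the Aronszajn tree at the level `ξ`. -/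
structure Cond {K A : Type u} [LinearOrder K] [PartialOrder A] (o : K) (D : K → Set (Set K))
    (an : K → A) (d : Option (Set K) × A) (α : K) (f : K → Option (Set K) × A) : Prop where
  nrm : ∀ ξ, α < ξ → f ξ = d
  lv : ∀ ξ, ξ ≤ α → (f ξ).2 ∈ Level A ξ
  bot : (f o).1 ≠ none
  cl : ∀ δ, δ ≤ α → (∀ β, β < δ → ∃ ξ, β < ξ ∧ ξ < δ ∧ (f ξ).1 ≠ none) → (f δ).1 ≠ none
  sub : ∀ η x, (f η).1 = some x → x ⊆ Iio η
  g1 : ∀ η x, (f η).1 = some x → x ∈ D η
  g2 : ∀ η, (f η).1 ≠ none → {ξ | ξ < η ∧ (f ξ).1 ≠ none} ∈ D η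
  coh : ∀ ξ η x y, ξ < η → (f ξ).1 = some x → (f η).1 = some y → x = y ∩ Iio ξ
  ch : ∀ ξ η, ξ ≤ η → η ≤ α → (∀ ζ, ξ < ζ → ζ ≤ η → (f ζ).1 = none) → (f ξ).2 ≤ (f η).2
  can : ∀ ξ η, ξ < η → (f η).1 ≠ none → (∀ ζ, ξ < ζ → ζ < η → (f ζ).1 = none) → (f ξ).2 ≤ an η

variable {K A : Type u} [LinearOrder K] [WellFoundedLT K] [PartialOrder A]
  {o : K} {D : K → Set (Set K)} {an : K → A} {d : Option (Set K) × A}

lemma cut_ne (hd : d.1 = none) {β ξ : K} {f : K → Option (Set K) × A}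
    (h : (cut d β f ξ).1 ≠ none) : ξ ≤ β := by
  by_contra hc
  rw [cut_gt _ (not_le.1 hc)] at h
  exact h hd

lemma Cond.cut (hd : d.1 = none) (ho : ∀ k, o ≤ k) {α β : K} {f : K → Option (Set K) × A}
    (h : Cond o D an d α f) (hβ : β ≤ α) : Cond o D an d β (SK.cut d β f) where
  nrm ξ hξ := cut_gt _ hξ
  lv ξ hξ := by
    rw [cut_le _ hξ]
    exact h.lv ξ (hξ.trans hβ)
  bot := by
    rw [cut_le _ (ho β)]
    exact h.bot
  cl δ hδ hyp := by
    rw [cut_le _ hδ]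
    apply h.cl δ (hδ.trans hβ)
    intro γ hγ
    obtain ⟨ξ, h1, h2, h3⟩ := hyp γ hγ
    rw [cut_le _ (h2.le.trans hδ)] at h3
    exact ⟨ξ, h1, h2, h3⟩
  sub η x hx := by
    have h1 : η ≤ β := cut_ne hd (f := f) (by rw [hx]; simp)
    rw [cut_le _ h1] at hx
    exact h.sub η x hx
  g1 η x hx := by
    have h1 : η ≤ β := cut_ne hd (f := f) (by rw [hx]; simp)
    rw [cut_le _ h1] at hx
    exact h.g1 η x hx
  g2 η hη := by
    have h1 : η ≤ β := cut_ne hd hη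
    rw [cut_le _ h1] at hη
    have := h.g2 η hη
    convert this using 1
    ext ξ
    simp only [mem_setOf_eq]
    constructor
    · rintro ⟨h2, h3⟩
      rw [cut_le _ (h2.le.trans h1)] at h3
      exact ⟨h2, h3⟩
    · rintro ⟨h2, h3⟩
      rw [cut_le _ (h2.le.trans h1)]
      exact ⟨h2, h3⟩
  coh ξ η x y hξη hx hy := by
    have h1 : η ≤ β := cut_ne hd (f := f) (by rw [hy]; simp)
    rw [cut_le _ h1] at hy
    rw [cut_le _ (hξη.le.trans h1)] at hx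
    exact h.coh ξ η x y hξη hx hy
  ch ξ η h1 h2 h3 := by
    rw [cut_le _ h2, cut_le _ (h1.trans h2)]
    apply h.ch ξ η h1 (h2.trans hβ)
    intro ζ h4 h5
    have := h3 ζ h4 h5
    rwa [cut_le _ (h5.trans h2)] at this
  can ξ η h1 h2 h3 := by
    have h0 : η ≤ β := cut_ne hd h2
    rw [cut_le _ h0] at h2
    rw [cut_le _ (h1.le.trans h0)]
    apply h.can ξ η h1 h2
    intro ζ h4 h5
    have := h3 ζ h4 h5
    rwa [cut_le _ (h5.le.trans h0)] at this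

lemma Cond.cut_self {α : K} {f : K → Option (Set K) × A} (h : Cond o D an d α f) :
    SK.cut d α f = f := by
  funext ξ
  rcases le_or_gt ξ α with h1 | h1
  · rw [cut_le _ h1]
  · rw [cut_gt _ h1, h.nrm ξ h1]

lemma goodCond (hd : d.1 = none) (ho : ∀ k, o ≤ k) : Good d (Cond o D an d) where
  cut _ _ _ h hβ := h.cut hd ho hβ
  nrm _ _ h := h.cut_self

/-- there is a last element of the closed set -/
lemma Cond.last {α : K} {f : K → Option (Set K) × A} (h : Cond o D an d α f) :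
    ∃ γ, γ ≤ α ∧ (f γ).1 ≠ none ∧ ∀ ζ, γ < ζ → ζ ≤ α → (f ζ).1 = none := by
  let S : Set K := {γ | γ ≤ α ∧ ∀ ζ, γ < ζ → ζ ≤ α → (f ζ).1 = none}
  have hS : S.Nonempty := ⟨α, le_rfl, fun ζ h1 h2 => absurd h1 (not_lt.2 h2)⟩
  have hwf : WellFounded (fun a b : K => a < b) := wellFounded_lt
  obtain ⟨γ, hγ, hmin⟩ := hwf.has_min S hS
  refine ⟨γ, hγ.1, ?_, hγ.2⟩
  by_contra hne
  apply h.cl γ hγ.1 _ hne
  intro β hβ
  have h1 : β ∉ S := fun hh => hmin β hh hβ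
  have h2 : ¬ ∀ ζ, β < ζ → ζ ≤ α → (f ζ).1 = none := fun hh => h1 ⟨hβ.le.trans hγ.1, hh⟩
  push Not at h2
  obtain ⟨ζ, h3, h4, h5⟩ := h2
  refine ⟨ζ, h3, ?_, h5⟩
  rcases lt_trichotomy ζ γ with h6 | h6 | h6
  · exact h6
  · exact absurd (h6 ▸ hne) h5
  · exact absurd (hγ.2 ζ h6 h4) h5

/-- a node is determined by few data -/
lemma Cond.eq_of_code (han : ∀ η, an η ∈ Level A η) {α γ : K} {f g : K → Option (Set K) × A}
    (hf : Cond o D an d α f) (hg : Cond o D an d α g) (hγ : γ ≤ α)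
    (h1 : (f γ).1 ≠ none) (h2 : ∀ ζ, γ < ζ → ζ ≤ α → (f ζ).1 = none)
    (h3 : ∀ ζ, γ < ζ → ζ ≤ α → (g ζ).1 = none) (h4 : (f γ).1 = (g γ).1)
    (h5 : {ξ | ξ < γ ∧ (f ξ).1 ≠ none} = {ξ | ξ < γ ∧ (g ξ).1 ≠ none})
    (h6 : (f α).2 = (g α).2) : f = g := by
  have s1 : ∀ ξ, (f ξ).1 = (g ξ).1 := by
    intro ξ
    rcases lt_trichotomy ξ γ with h | h | h
    · by_cases hn : (f ξ).1 = none
      · rw [hn]
        by_contra hc
        have : ξ ∈ {ξ | ξ < γ ∧ (f ξ).1 ≠ none} := by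
          rw [h5]
          exact ⟨h, fun hh => hc hh.symm⟩
        exact this.2 hn
      · have hn' : ξ ∈ {ξ | ξ < γ ∧ (g ξ).1 ≠ none} := by
          rw [← h5]
          exact ⟨h, hn⟩
        obtain ⟨x, hx⟩ := Option.ne_none_iff_exists'.1 hn
        obtain ⟨x', hx'⟩ := Option.ne_none_iff_exists'.1 hn'.2
        obtain ⟨y, hy⟩ := Option.ne_none_iff_exists'.1 h1
        rw [hx, hx', hf.coh ξ γ x y h hx hy, hg.coh ξ γ x' y h hx' (h4 ▸ hy)]
    · rw [h, h4]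
    · rcases le_or_gt ξ α with h' | h'
      · rw [h2 ξ h h', h3 ξ h h']
      · rw [hf.nrm ξ h', hg.nrm ξ h']
  funext ξ
  apply Prod.ext (s1 ξ)
  rcases le_or_gt ξ α with h | h
  swap
  · rw [hf.nrm ξ h, hg.nrm ξ h]
  rcases le_or_gt γ ξ with h' | h'
  · have a1 := hf.ch ξ α h le_rfl (fun ζ h7 h8 => h2 ζ (h'.trans_lt h7) h8)
    have a2 := hg.ch ξ α h le_rfl (fun ζ h7 h8 => h3 ζ (h'.trans_lt h7) h8)
    rw [← h6] at a2
    exact eq_of_level (hf.lv α le_rfl) a1 a2 (hf.lv ξ h) (hg.lv ξ h)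
  · have hwf : WellFounded (fun a b : K => a < b) := wellFounded_lt
    obtain ⟨η, hη, hmin⟩ := hwf.has_min {η | ξ < η ∧ (f η).1 ≠ none} ⟨γ, h', h1⟩
    have hnone : ∀ ζ, ξ < ζ → ζ < η → (f ζ).1 = none := by
      intro ζ h7 h8
      by_contra hc
      exact hmin ζ ⟨h7, hc⟩ h8
    have a1 := hf.can ξ η hη.1 hη.2 hnone
    have a2 := hg.can ξ η hη.1 (by rw [← s1]; exact hη.2) (fun ζ h7 h8 => by
      rw [← s1]; exact hnone ζ h7 h8)
    exact eq_of_level (han η) a1 a2 (hf.lv ξ h) (hg.lv ξ h)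

end Pool.Agent.W5h13.SK
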