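import Mathlib

set_option autoImplicit false

/-!
# Strong Kurepa trees: definitions

`K` is a linear order, in the applications a well-order whose order type is an infinite successor
cardinal `κ = λ⁺`; its elements play the role of the ordinals `< κ`.
-/

namespace Pool.Agent.W5h13.SK

open Cardinal Set

universe u

/-- The `α`-th level of `T`: the nodes whose set of predecessors has the order type of the set of
the predecessors of `α`. -/
def Level {K : Type u} [LinearOrder K] (T : Type u) [PartialOrder T] (α : K) : Set T :=
  {t | Nonempty (Iio t ≃o Iio α)}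

/-- `T` is a `κ`-tree, `κ` the order type of the well-order `K` (a cardinal): the set of predecessors
of every node is well-ordered, of order type smaller than `κ`, no level with index smaller than `κ`
is empty (so that the height is `κ`), and all these levels have fewer than `κ` elements. -/
structure IsTree (K : Type u) [LinearOrder K] (T : Type u) [PartialOrder T] : Prop where
  lev : ∀ t : T, ∃ α : K, t ∈ Level T α
  ne : ∀ α : K, (Level T α).Nonempty
  small : ∀ α : K, #(Level T α) < #K

/-- A cofinal branch of the `κ`-tree `T`: a linearly ordered, downward closed set of nodes which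
meets every level. -/
structure IsBranch (K : Type u) [LinearOrder K] {T : Type u} [PartialOrder T] (b : Set T) :
    Prop where
  chain : IsChain (· ≤ ·) b
  lower : IsLowerSet b
  meets : ∀ α : K, (b ∩ Level T α).Nonempty

/-- The set `[T]` of the cofinal branches. -/
def Branches (K : Type u) [LinearOrder K] (T : Type u) [PartialOrder T] : Type u :=
  {b : Set T // IsBranch K b}

/-- The cone topology of `[T]`: the sets `{b | t ∈ b}`, `t ∈ T`, are a subbase (for a tree, with
the whole space, a base). -/
@[reducible] def branchTop (K : Type u) [LinearOrder K] (T : Type u) [PartialOrder T] :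
    TopologicalSpace (Branches K T) :=
  TopologicalSpace.generateFrom {U | ∃ t : T, U = {b | t ∈ b.1}}

/-- The cone topology of `²κ`: the sets `{g | s ⊆ g}`, `s ∈ ^α 2`, `α < κ`, are a base. -/
@[reducible] def coneTop (K : Type u) [LinearOrder K] : TopologicalSpace (K → Bool) :=
  TopologicalSpace.generateFrom {U | ∃ (α : K) (s : Iio α → Bool), U = {g | ∀ ξ : Iio α, g ξ = s ξ}}

/-- `T` is a strong `κ`-Kurepa tree: a `κ`-tree with at least `κ⁺` cofinal branches such that the
space `[T]` has a continuous map onto `²κ`. -/
structure IsStrongKurepa (K : Type u) [LinearOrder K] (T : Type u) [PartialOrder T] : Prop where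
  tree : IsTree K T
  kurepa : Order.succ #K ≤ #(Branches K T)
  strong : ∃ f : Branches K T → (K → Bool),
    @Continuous _ _ (branchTop K T) (coneTop K) f ∧ Function.Surjective f

/-- `T` is a `κ`-Aronszajn tree. -/
structure IsAronszajn (K : Type u) [LinearOrder K] (T : Type u) [PartialOrder T] : Prop where
  tree : IsTree K T
  noBranch : ∀ b : Set T, ¬ IsBranch K b

/-- `C` is closed and unbounded in `κ`. -/
structure IsClub {K : Type u} [LinearOrder K] (C : Set K) : Prop where
  unbounded : ∀ α, ∃ ξ ∈ C, α < ξ
  closed : ∀ δ, (Iio δ).Nonempty → (∀ β < δ, ∃ ξ ∈ C, β < ξ ∧ ξ < δ) → δ ∈ C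

/-- Jensen's principle `◇⁺(κ)`: there are sets `A α` (`α < κ`) of fewer than `κ` subsets of `α` such
that for every `X ⊆ κ` there is a closed unbounded `C ⊆ κ` with `X ∩ α ∈ A α` and `C ∩ α ∈ A α` for
all `α ∈ C`. -/
def DiamondPlus (K : Type u) [LinearOrder K] : Prop :=
  ∃ A : K → Set (Set K), (∀ α, #(A α) < #K) ∧
    ∀ X : Set K, ∃ C : Set K, IsClub C ∧ ∀ α ∈ C, X ∩ Iio α ∈ A α ∧ C ∩ Iio α ∈ A α

end Pool.Agent.W5h13.SK
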