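import Pool.Agent.W5h13.SK.Main

set_option autoImplicit false
set_option linter.unusedSectionVars false

/-! # The strong Kurepa tree: sizes and surjectivity -/

namespace Pool.Agent.W5h13.SK

open Cardinal Set

universe u

section
variable {K A : Type u} [LinearOrder K] [WellFoundedLT K] [PartialOrder A]
  {o : K} {D : K → Set (Set K)} {an : K → A} {d : Option (Set K) × A}

/-- the levels are small -/
lemma small_level (hd : d.1 = none) (ho : ∀ k, o ≤ k) (hA : IsTree K A)
    (han : ∀ η, an η ∈ Level A η) {lam : Cardinal.{u}} (hlam : ℵ₀ ≤ lam)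
    (hK : #K = Order.succ lam) (hi : ∀ α : K, #(Iic α) ≤ lam) (hD : ∀ α, #(D α) ≤ lam) (α : K) :
    #(@Level K _ (Tr o D an d) (trOrder hd ho) α) < #K := by
  classical
  letI := trOrder (an := an) (D := D) hd ho
  have hW : #(⋃ γ ∈ Iic α, D γ : Set (Set K)) ≤ lam := by
    refine (mk_biUnion_le _ _).trans ?_
    refine mul_le_of_le hlam (hi α) ?_
    exact ciSup_le' fun x => hD _
  have hL : #(Level A α) ≤ lam := by
    have := hA.small α
    rw [hK] at this
    exact Order.lt_succ_iff.1 this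
  set W : Set (Set K) := ⋃ γ ∈ Iic α, D γ with hWdef
  let B : Set (K × Set K × Set K × A) := Iic α ×ˢ (W ×ˢ (W ×ˢ Level A α))
  have hB : #B ≤ lam := by
    simp only [B, mk_setProd]
    exact mul_le_of_le hlam (hi α) (mul_le_of_le hlam hW (mul_le_of_le hlam hW hL))
  have hlev : ∀ p : Tr o D an d, p ∈ Level (Tr o D an d) α ↔ p.1.1 = α := fun p =>
    nd_level (goodCond hd ho) p α
  have hlast : ∀ p : Tr o D an d, ∃ γ, γ ≤ p.1.1 ∧ (p.1.2 γ).1 ≠ none ∧
      ∀ ζ, γ < ζ → ζ ≤ p.1.1 → (p.1.2 ζ).1 = none := fun p => p.2.last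
  choose la hla1 hla2 hla3 using hlast
  let code : Tr o D an d → K × Set K × Set K × A := fun p =>
    (la p, {ξ | ξ < la p ∧ (p.1.2 ξ).1 ≠ none}, ((p.1.2 (la p)).1).getD ∅, (p.1.2 p.1.1).2)
  have hmem : ∀ p ∈ Level (Tr o D an d) α, code p ∈ B := by
    intro p hp
    rw [hlev] at hp
    obtain ⟨x, hx⟩ := Option.ne_none_iff_exists'.1 (hla2 p)
    have h1 : la p ≤ α := hp ▸ hla1 p
    refine ⟨h1, ?_, ?_, ?_⟩
    · exact mem_iUnion₂.2 ⟨la p, h1, p.2.g2 _ (hla2 p)⟩
    · refine mem_iUnion₂.2 ⟨la p, h1, ?_⟩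
      show ((p.1.2 (la p)).1).getD ∅ ∈ _
      rw [hx]
      exact p.2.g1 _ _ hx
    · show (p.1.2 p.1.1).2 ∈ _
      rw [← hp]
      exact p.2.lv _ le_rfl
  have hinj : InjOn code (Level (Tr o D an d) α) := by
    intro p hp q hq hpq
    rw [hlev] at hp hq
    simp only [code, Prod.mk.injEq] at hpq
    obtain ⟨e1, e2, e3, e4⟩ := hpq
    have e0 : p.1.1 = q.1.1 := hp.trans hq.symm
    obtain ⟨x, hx⟩ := Option.ne_none_iff_exists'.1 (hla2 p)
    obtain ⟨y, hy⟩ := Option.ne_none_iff_exists'.1 (hla2 q)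
    apply Subtype.ext
    apply Prod.ext e0
    have hq2 : Cond o D an d p.1.1 q.1.2 := by
      rw [e0]; exact q.2
    refine p.2.eq_of_code han hq2 (hla1 p) (hla2 p) (hla3 p) ?_ ?_ ?_ ?_
    · intro ζ h1 h2
      exact hla3 q ζ (e1 ▸ h1) (e0 ▸ h2)
    · rw [e1, hy]
      rw [hx, hy] at e3
      rw [e1] at hx
      rw [hx]
      simpa using e3
    · rw [e2, e1]
    · rw [e4, e0]
  calc #(Level (Tr o D an d) α) ≤ #B :=
        Cardinal.mk_le_of_injective (f := fun p : Level (Tr o D an d) α =>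
          (⟨code p.1, hmem p.1 p.2⟩ : B)) (by
            intro p q hpq
            apply Subtype.ext
            exact hinj p.2 q.2 (congrArg Subtype.val hpq))
    _ ≤ lam := hB
    _ < #K := by rw [hK]; exact Order.lt_succ lam

/-- the function of a closed unbounded set and a set -/
lemma exists_fun (hd : d.1 = none) (ho : ∀ k, o ≤ k) (han : ∀ η, an η ∈ Level A η)
    {C X : Set K} (hC : IsClub C) (h1 : ∀ α ∈ C, X ∩ Iio α ∈ D α)
    (h2 : ∀ α ∈ C, insert o (C ∩ Iio α) ∈ D α) (h3 : ∅ ∈ D o) :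
    ∃ F : K → Option (Set K) × A, (∀ α, Cond o D an d α (cut d α F)) ∧
      ∀ η ∈ C, (F η).1 = some (X ∩ Iio η) := by
  classical
  -- the next element of `C`
  have hnx : ∀ ξ : K, ∃ η ∈ C, ξ < η ∧ ∀ ζ ∈ C, ξ < ζ → η ≤ ζ := by
    intro ξ
    have hwf : WellFounded (fun a b : K => a < b) := wellFounded_lt
    obtain ⟨η0, h0, h0'⟩ := hC.unbounded ξ
    obtain ⟨η, hη, hmin⟩ := hwf.has_min {η | η ∈ C ∧ ξ < η} ⟨η0, h0, h0'⟩
    exact ⟨η, hη.1, hη.2, fun ζ hζ hζ' => not_lt.1 (hmin ζ ⟨hζ, hζ'⟩)⟩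
  choose nx nx1 nx2 nx3 using hnx
  have hrs : ∀ ξ : K, ∃ s ≤ an (nx ξ), s ∈ Level A ξ := fun ξ =>
    exists_below (han (nx ξ)) (nx2 ξ).le
  choose r r1 r2 using hrs
  let F : K → Option (Set K) × A := fun ξ =>
    (if ξ ∈ insert o C then some (X ∩ Iio ξ) else none, r ξ)
  have hF1 : ∀ ξ, (F ξ).1 ≠ none ↔ ξ ∈ insert o C := by
    intro ξ
    simp only [F]
    split_ifs with h
    · simpa using h
    · simpa using h
  have hF2 : ∀ ξ x, (F ξ).1 = some x → ξ ∈ insert o C ∧ x = X ∩ Iio ξ := by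
    intro ξ x hx
    have h := (hF1 ξ).1 (by rw [hx]; simp)
    refine ⟨h, ?_⟩
    simp only [F, if_pos h, Option.some.injEq] at hx
    exact hx.symm
  have hno : ∀ ξ β, β < ξ → ξ ∈ insert o C → ξ ∈ C := by
    intro ξ β hβ h
    rcases h with h | h
    · exact absurd (ho β) (not_le.2 (h ▸ hβ))
    · exact h
  refine ⟨F, ?_, ?_⟩
  · intro α
    refine ⟨fun ξ hξ => cut_gt _ hξ, ?_, ?_, ?_, ?_, ?_, ?_, ?_, ?_, ?_⟩
    · intro ξ hξ
      rw [cut_le _ hξ]
      exact r2 ξ
    · rw [cut_le _ (ho α), hF1]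
      exact mem_insert _ _
    · intro δ hδ hyp
      rw [cut_le _ hδ, hF1]
      by_cases h : (Iio δ).Nonempty
      · right
        apply hC.closed δ h
        intro β hβ
        obtain ⟨ξ, g1, g2, g3⟩ := hyp β hβ
        rw [cut_le _ (g2.le.trans hδ), hF1] at g3
        exact ⟨ξ, hno ξ β g1 g3, g1, g2⟩
      · left
        have : ¬ o < δ := fun hh => h ⟨o, hh⟩
        exact le_antisymm (not_lt.1 this) (ho δ)
    · intro η x hx
      have g := cut_ne hd (f := F) (ξ := η) (β := α) (by rw [hx]; simp)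
      rw [cut_le _ g] at hx
      rw [(hF2 η x hx).2]
      exact inter_subset_right
    · intro η x hx
      have g := cut_ne hd (f := F) (ξ := η) (β := α) (by rw [hx]; simp)
      rw [cut_le _ g] at hx
      obtain ⟨g1, rfl⟩ := hF2 η x hx
      rcases g1 with rfl | g1
      · have : X ∩ Iio η = ∅ := by
          ext k
          simp only [mem_inter_iff, mem_Iio, mem_empty_iff_false, iff_false, not_and, not_lt]
          exact fun _ => ho k
        rw [this]
        exact h3
      · exact h1 η g1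
    · intro η hη
      have g := cut_ne hd hη
      rw [cut_le _ g, hF1] at hη
      have e : {ξ | ξ < η ∧ (cut d α F ξ).1 ≠ none} = {ξ | ξ < η ∧ ξ ∈ insert o C} := by
        ext ξ
        simp only [mem_setOf_eq]
        constructor
        · rintro ⟨g1, g2⟩
          rw [cut_le _ (g1.le.trans g), hF1] at g2
          exact ⟨g1, g2⟩
        · rintro ⟨g1, g2⟩
          rw [cut_le _ (g1.le.trans g), hF1]
          exact ⟨g1, g2⟩
      rw [e]
      by_cases hηo : η = o
      · subst hηo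
        have : {ξ | ξ < η ∧ ξ ∈ insert η C} = ∅ := by
          ext k
          simp only [mem_setOf_eq, mem_empty_iff_false, iff_false, not_and]
          exact fun hk => absurd (ho k) (not_le.2 hk)
        rw [this]
        exact h3
      · have hηC : η ∈ C := hη.resolve_left hηo
        have : {ξ | ξ < η ∧ ξ ∈ insert o C} = insert o (C ∩ Iio η) := by
          ext k
          simp only [mem_setOf_eq, mem_insert_iff, mem_inter_iff, mem_Iio]
          constructor
          · rintro ⟨g1, g2 | g2⟩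
            · exact Or.inl g2
            · exact Or.inr ⟨g2, g1⟩
          · rintro (g1 | ⟨g1, g2⟩)
            · refine ⟨?_, Or.inl g1⟩
              rw [g1]
              exact lt_of_le_of_ne (ho η) (fun hh => hηo hh.symm)
            · exact ⟨g2, Or.inr g1⟩
        rw [this]
        exact h2 η hηC
    · intro ξ η x y hξη hx hy
      have g := cut_ne hd (f := F) (ξ := η) (β := α) (by rw [hy]; simp)
      rw [cut_le _ g] at hy
      rw [cut_le _ (hξη.le.trans g)] at hx
      rw [(hF2 ξ x hx).2, (hF2 η y hy).2]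
      ext k
      simp only [mem_inter_iff, mem_Iio]
      constructor
      · rintro ⟨g1, g2⟩
        exact ⟨⟨g1, g2.trans hξη⟩, g2⟩
      · rintro ⟨⟨g1, _⟩, g2⟩
        exact ⟨g1, g2⟩
    · intro ξ η hξη hη hnone
      rw [cut_le _ hη, cut_le _ (hξη.trans hη)]
      have hC' : ∀ ζ, ξ < ζ → ζ ≤ η → ζ ∉ C := by
        intro ζ g1 g2 g3
        have := hnone ζ g1 g2
        rw [cut_le _ (g2.trans hη)] at this
        exact (hF1 ζ).2 (Or.inr g3) this
      have hnx : nx ξ = nx η := by
        apply le_antisymm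
        · exact nx3 ξ _ (nx1 η) (hξη.trans_lt (nx2 η))
        · refine nx3 η _ (nx1 ξ) ?_
          by_contra hc
          exact hC' _ (nx2 ξ) (not_lt.1 hc) (nx1 ξ)
      show r ξ ≤ r η
      exact le_of_level (han (nx η)) (hnx ▸ r1 ξ) (r1 η) (r2 ξ) (r2 η) hξη
    · intro ξ η hξη hη hnone
      have g := cut_ne hd hη
      rw [cut_le _ g, hF1] at hη
      rw [cut_le _ (hξη.le.trans g)]
      have hηC : η ∈ C := hno η ξ hξη hη
      have : nx ξ = η := by
        apply le_antisymm (nx3 ξ η hηC hξη)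
        by_contra hc
        have hc' := not_le.1 hc
        have := hnone (nx ξ) (nx2 ξ) hc'
        rw [cut_le _ (hc'.le.trans g)] at this
        exact (hF1 _).2 (Or.inr (nx1 ξ)) this
      show r ξ ≤ an η
      exact this ▸ r1 ξ
  · intro η hη
    simp only [F, if_pos (mem_insert_of_mem o hη)]

/-- the branch of a function -/
lemma fun_branch (hd : d.1 = none) (ho : ∀ k, o ≤ k) {F : K → Option (Set K) × A}
    (hF : ∀ α, Cond o D an d α (cut d α F)) :
    IsBr hd ho {p : Tr o D an d | p.1.2 = cut d p.1.1 F} := by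
  let _ := trOrder (an := an) (D := D) hd ho
  refine ⟨?_, ?_, ?_⟩
  · intro p hp q hq _
    simp only [mem_setOf_eq] at hp hq
    rcases le_total p.1.1 q.1.1 with h | h
    · left
      exact ⟨h, by rw [hq, cut_cut _ h, hp]⟩
    · right
      exact ⟨h, by rw [hp, cut_cut _ h, hq]⟩
  · intro p q hqp hp
    simp only [mem_setOf_eq] at hp ⊢
    rw [hqp.2, hp, cut_cut _ hqp.1]
  · intro α
    refine ⟨⟨(α, cut d α F), hF α⟩, ?_, ?_⟩
    · rfl
    · exact (nd_level (goodCond hd ho) _ α).2 rfl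

end

/-- **`◇⁺(κ)` and a `κ`-Aronszajn tree give a strong `κ`-Kurepa tree**, `κ = λ⁺`. -/
theorem main (lam : Cardinal.{u}) (hlam : ℵ₀ ≤ lam) (K : Type u) [LinearOrder K] [WellFoundedLT K]
    (hK : (Order.succ lam).ord = Ordinal.type (α := K) (· < ·)) (hdia : DiamondPlus K)
    (A : Type u) [PartialOrder A] (hA : IsAronszajn K A) :
    ∃ (T : Type u) (_ : PartialOrder T), IsStrongKurepa K T := by
  classical
  have hcard : #K = Order.succ lam := by
    have := congrArg Ordinal.card hK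
    rw [card_ord, Ordinal.card_type] at this
    exact this.symm
  have hiio : ∀ α : K, #(Iio α) ≤ lam := by
    intro α
    have := mk_Iio_lt α (by rw [hcard]; exact hK)
    rw [hcard] at this
    exact Order.lt_succ_iff.1 this
  have hiic : ∀ α : K, #(Iic α) ≤ lam := by
    intro α
    have h1 : (Iic α : Set K) = insert α (Iio α) := by
      ext k; simp [le_iff_eq_or_lt]
    rw [h1]
    refine (mk_insert_le).trans ?_
    exact add_le_of_le hlam (hiio α) (one_lt_aleph0.le.trans hlam)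
  have hne : Nonempty K := by
    rw [← mk_ne_zero_iff, hcard]
    exact (Order.bot_lt_succ lam).ne'
  have hwf : WellFounded (fun a b : K => a < b) := wellFounded_lt
  obtain ⟨o, -, ho'⟩ := hwf.has_min (univ : Set K) univ_nonempty
  have ho : ∀ k, o ≤ k := fun k => not_lt.1 (ho' k trivial)
  obtain ⟨A0, hA0, hdia⟩ := hdia
  have hA0' : ∀ α, #(A0 α) ≤ lam := by
    intro α
    have := hA0 α
    rw [hcard] at this
    exact Order.lt_succ_iff.1 this
  let D : K → Set (Set K) := fun α => insert ∅ (A0 α ∪ (insert o) '' (A0 α))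
  have hD : ∀ α, #(D α) ≤ lam := by
    intro α
    refine (mk_insert_le).trans ?_
    refine add_le_of_le hlam ((mk_union_le _ _).trans ?_) (one_lt_aleph0.le.trans hlam)
    exact add_le_of_le hlam (hA0' α) (mk_image_le.trans (hA0' α))
  have hex : ∀ η : K, ∃ a, a ∈ Level A η := fun η => hA.tree.ne η
  choose an han using hex
  let d : Option (Set K) × A := (none, an o)
  have hd : d.1 = none := rfl
  letI ord : PartialOrder (Tr o D an d) := trOrder hd ho
  -- every set is the image of a branch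
  have hsurj : ∀ g : K → Bool, ∃ b : Branches K (Tr o D an d), Phi b.1 = g := by
    intro g
    obtain ⟨C, hC, hC2⟩ := hdia {ζ | g ζ = true}
    obtain ⟨F, hF, hF2⟩ := exists_fun (D := D) (an := an) (d := d) hd ho han hC
      (fun α hα => Or.inr (Or.inl (hC2 α hα).1))
      (fun α hα => Or.inr (Or.inr ⟨_, (hC2 α hα).2, rfl⟩)) (Or.inl rfl)
    refine ⟨⟨_, fun_branch hd ho hF⟩, ?_⟩
    funext ζ
    obtain ⟨η, hη, hζη⟩ := hC.unbounded ζ
    have h1 := phi_iff hd ho (fun_branch hd ho hF) (p := ⟨(η, cut d η F), hF η⟩) rfl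
      (η := η) (ζ := ζ) (x := {ζ | g ζ = true} ∩ Iio η) (by
        show (cut d η F η).1 = _
        rw [cut_le _ le_rfl]
        exact hF2 η hη) hζη
    rw [Bool.eq_iff_iff, h1]
    simp [hζη]
  have hcurepa : Order.succ #K ≤ #(Branches K (Tr o D an d)) := by
    have h1 : #(K → Bool) ≤ #(Branches K (Tr o D an d)) :=
      mk_le_of_surjective (f := fun b : Branches K (Tr o D an d) => Phi b.1) hsurj
    refine (Order.succ_le_of_lt ?_).trans h1
    have : #(K → Bool) = 2 ^ #K := by simp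
    rw [this]
    exact cantor _
  refine ⟨Tr o D an d, ord, ⟨?_, ?_, ?_⟩, hcurepa, ⟨fun b => Phi b.1, phi_cont hd ho hA, hsurj⟩⟩
  · intro p
    exact ⟨p.1.1, (nd_level (goodCond hd ho) p _).2 rfl⟩
  · intro α
    obtain ⟨b, -⟩ := hsurj (fun _ => true)
    obtain ⟨p, -, hp⟩ := b.2.meets α
    exact ⟨p, hp⟩
  · exact small_level hd ho hA.tree han hlam hcard hiic hD

end Pool.Agent.W5h13.SK
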