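import Pool.Agent.W5h13.SK.Tree

set_option autoImplicit false

/-! # The tree of the partial functions

Nodes at the level `α` are functions on the elements `≤ α` of `K`, extended by a default value,
which satisfy a condition `P α`. -/

namespace Pool.Agent.W5h13.SK

open Cardinal Set

universe u

variable {K V : Type u} [LinearOrder K]

/-- `f` on the elements `≤ β`, the default value `d` above. -/
noncomputable def cut (d : V) (β : K) (f : K → V) : K → V := by
  classical exact fun ξ => if ξ ≤ β then f ξ else d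

lemma cut_le {d : V} {β ξ : K} (f : K → V) (h : ξ ≤ β) : cut d β f ξ = f ξ := by
  simp [cut, h]

lemma cut_gt {d : V} {β ξ : K} (f : K → V) (h : β < ξ) : cut d β f ξ = d := by
  simp [cut, not_le.2 h]

lemma cut_cut {d : V} {β γ : K} (f : K → V) (h : β ≤ γ) : cut d β (cut d γ f) = cut d β f := by
  funext ξ
  rcases le_or_gt ξ β with h1 | h1
  · rw [cut_le _ h1, cut_le _ (h1.trans h), cut_le _ h1]
  · rw [cut_gt _ h1, cut_gt _ h1]

/-- the conditions on `P` -/
structure Good (d : V) (P : K → (K → V) → Prop) : Prop where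
  cut : ∀ α f β, P α f → β ≤ α → P β (cut d β f)
  nrm : ∀ α f, P α f → SK.cut d α f = f

/-- the nodes -/
def Nd (P : K → (K → V) → Prop) : Type u := {p : K × (K → V) // P p.1 p.2}

/-- the order: extension of functions -/
@[reducible] noncomputable def ndOrder {d : V} {P : K → (K → V) → Prop} (hP : Good d P) :
    PartialOrder (Nd P) where
  le p q := p.1.1 ≤ q.1.1 ∧ p.1.2 = cut d p.1.1 q.1.2
  le_refl p := ⟨le_rfl, (hP.nrm _ _ p.2).symm⟩
  le_trans p q r h1 h2 := ⟨h1.1.trans h2.1, by
    rw [h1.2, h2.2, cut_cut _ h1.1]⟩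
  le_antisymm p q h1 h2 := by
    have h : p.1.1 = q.1.1 := le_antisymm h1.1 h2.1
    apply Subtype.ext
    apply Prod.ext h
    rw [h1.2, h, hP.nrm _ _ q.2]

section
variable [WellFoundedLT K] {d : V} {P : K → (K → V) → Prop} (hP : Good d P)

/-- the restriction of a node -/
noncomputable def rs (p : Nd P) (β : K) (h : β ≤ p.1.1) : Nd P :=
  ⟨(β, cut d β p.1.2), hP.cut _ _ _ p.2 h⟩

lemma nd_lt_iff (p q : Nd P) :
    letI := ndOrder hP
    p < q ↔ p.1.1 < q.1.1 ∧ p.1.2 = cut d p.1.1 q.1.2 := by
  letI := ndOrder hP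
  constructor
  · intro h
    refine ⟨lt_of_le_of_ne h.le.1 ?_, h.le.2⟩
    intro he
    have : p = q := by
      apply Subtype.ext
      apply Prod.ext he
      rw [h.le.2, he, hP.nrm _ _ q.2]
    exact h.ne this
  · intro h
    refine lt_of_le_of_ne ⟨h.1.le, h.2⟩ ?_
    rintro rfl
    exact lt_irrefl _ h.1

/-- the predecessors of a node -/
noncomputable def ndIso (p : Nd P) :
    letI := ndOrder hP
    Iio p ≃o Iio p.1.1 :=
  letI := ndOrder hP
  { toFun := fun q => ⟨q.1.1.1, ((nd_lt_iff hP _ _).1 q.2).1⟩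
    invFun := fun β => ⟨rs hP p β.1 (mem_Iio.1 β.2).le, (nd_lt_iff hP _ _).2 ⟨mem_Iio.1 β.2, rfl⟩⟩
    left_inv := by
      intro q
      apply Subtype.ext
      apply Subtype.ext
      refine Prod.ext ?_ ?_
      · rfl
      · exact ((nd_lt_iff hP _ _).1 q.2).2.symm
    right_inv := by
      intro β
      rfl
    map_rel_iff' := by
      intro q r
      constructor
      · intro h
        have h' : q.1.1.1 ≤ r.1.1.1 := h
        refine ⟨h', ?_⟩
        have hq := ((nd_lt_iff hP _ _).1 q.2).2
        have hr := ((nd_lt_iff hP _ _).1 r.2).2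
        rw [hq, hr, cut_cut _ h']
      · intro h
        exact (show q.1 ≤ r.1 from h).1 }

lemma nd_level (p : Nd P) (α : K) :
    letI := ndOrder hP
    p ∈ Level (Nd P) α ↔ p.1.1 = α := by
  letI := ndOrder hP
  constructor
  · intro h
    exact level_unique (T := Nd P) ⟨ndIso hP p⟩ h
  · rintro rfl
    exact ⟨ndIso hP p⟩

end

end Pool.Agent.W5h13.SK
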