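import Pool.Agent.W5h13.SK.Cond

set_option autoImplicit false
set_option linter.unusedSectionVars false

/-! # The strong Kurepa tree -/

namespace Pool.Agent.W5h13.SK

open Cardinal Set

universe u

section
variable {K A : Type u} [LinearOrder K] [WellFoundedLT K] [PartialOrder A]
  (o : K) (D : K → Set (Set K)) (an : K → A) (d : Option (Set K) × A)

/-- the tree -/
abbrev Tr : Type u := Nd (Cond o D an d)

variable {o D an d} (hd : d.1 = none) (ho : ∀ k, o ≤ k)

/-- the order of the tree -/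
@[reducible] noncomputable def trOrder : PartialOrder (Tr o D an d) := ndOrder (goodCond hd ho)

/-- cofinal branches of the tree -/
abbrev IsBr (b : Set (Tr o D an d)) : Prop := @IsBranch K _ (Tr o D an d) (trOrder hd ho) b

/-- two nodes of a branch: the lower one is the restriction of the higher one -/
lemma br_cut {b : Set (Tr o D an d)} (hb : IsBr hd ho b)
    {p q : Tr o D an d} (hp : p ∈ b) (hq : q ∈ b) (h : q.1.1 ≤ p.1.1) :
    q.1.2 = cut d q.1.1 p.1.2 := by
  letI := trOrder (an := an) (D := D) hd ho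
  rcases hb.chain.total hp hq with h1 | h1
  · have he : p.1.1 = q.1.1 := le_antisymm h1.1 h
    have h2 : p.1.2 = cut d p.1.1 q.1.2 := h1.2
    rw [h2, he, q.2.cut_self, q.2.cut_self]
  · exact h1.2

lemma br_ex {b : Set (Tr o D an d)} (hb : IsBr hd ho b) (α : K) :
    ∃ p ∈ b, p.1.1 = α := by
  letI := trOrder (an := an) (D := D) hd ho
  obtain ⟨p, hp, hl⟩ := hb.meets α
  exact ⟨p, hp, (nd_level (goodCond hd ho) p α).1 hl⟩

/-- the revealed function -/
noncomputable def Phi (b : Set (Tr o D an d)) : K → Bool := by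
  classical exact fun ζ => decide (∃ p ∈ b, ∃ η x, (p.1.2 η).1 = some x ∧ ζ ∈ x)

lemma phi_iff {b : Set (Tr o D an d)} (hb : IsBr hd ho b)
    {p : Tr o D an d} (hp : p ∈ b) {η ζ : K} {x : Set K} (hx : (p.1.2 η).1 = some x)
    (hζ : ζ < η) : Phi b ζ = true ↔ ζ ∈ x := by
  classical
  simp only [Phi, decide_eq_true_eq]
  constructor
  · rintro ⟨q, hq, η', x', hx', hζx⟩
    -- a common higher node
    obtain ⟨r, hr, hr1, hr2⟩ : ∃ r ∈ b, p.1.1 ≤ r.1.1 ∧ q.1.1 ≤ r.1.1 := by
      rcases le_total p.1.1 q.1.1 with h | h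
      · exact ⟨q, hq, h, le_rfl⟩
      · exact ⟨p, hp, le_rfl, h⟩
    have e1 : (r.1.2 η).1 = some x := by
      rw [br_cut hd ho hb hr hp hr1] at hx
      have := cut_ne hd (d := d) (f := r.1.2) (ξ := η) (β := p.1.1) (by rw [hx]; simp)
      rwa [cut_le _ this] at hx
    have e2 : (r.1.2 η').1 = some x' := by
      rw [br_cut hd ho hb hr hq hr2] at hx'
      have := cut_ne hd (d := d) (f := r.1.2) (ξ := η') (β := q.1.1) (by rw [hx']; simp)
      rwa [cut_le _ this] at hx'
    have h3 : ζ < η' := r.2.sub η' x' e2 hζx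
    rcases lt_trichotomy η η' with h | h | h
    · rw [r.2.coh η η' x x' h e1 e2]
      exact ⟨hζx, hζ⟩
    · subst h
      rw [e1] at e2
      rw [Option.some.inj e2]
      exact hζx
    · have := r.2.coh η' η x' x h e2 e1
      rw [this] at hζx
      exact hζx.1
  · intro h
    exact ⟨p, hp, η, x, hx, h⟩

/-- the closed set of a cofinal branch is unbounded -/
lemma br_unb (hA : IsAronszajn K A) {b : Set (Tr o D an d)}
    (hb : IsBr hd ho b) (β : K) :
    ∃ p ∈ b, ∃ η, β < η ∧ (p.1.2 η).1 ≠ none := by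
  by_contra hcon
  push Not at hcon
  have key : ∀ p ∈ b, ∀ q ∈ b, β ≤ q.1.1 → q.1.1 ≤ p.1.1 →
      (q.1.2 q.1.1).2 ≤ (p.1.2 p.1.1).2 := by
    intro p hp q hq h1 h2
    rw [br_cut hd ho hb hp hq h2, cut_le _ le_rfl]
    exact p.2.ch _ _ h2 le_rfl (fun ζ h3 _ => hcon p hp ζ (h1.trans_lt h3))
  apply hA.noBranch {a | ∃ p ∈ b, β ≤ p.1.1 ∧ a ≤ (p.1.2 p.1.1).2}
  refine ⟨?_, ?_, ?_⟩
  · rintro a ⟨p, hp, hp1, hp2⟩ a' ⟨q, hq, hq1, hq2⟩ _
    rcases le_total p.1.1 q.1.1 with h | h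
    · exact comparable (q.2.lv _ le_rfl) (hp2.trans (key q hq p hp hp1 h)) hq2
    · exact comparable (p.2.lv _ le_rfl) hp2 (hq2.trans (key p hp q hq hq1 h))
  · rintro a a' haa ⟨p, hp, hp1, hp2⟩
    exact ⟨p, hp, hp1, haa.trans hp2⟩
  · intro α
    obtain ⟨p, hp, hp1⟩ := br_ex hd ho hb (max α β)
    obtain ⟨s, hs1, hs2⟩ := exists_below (p.2.lv p.1.1 le_rfl)
      (show α ≤ p.1.1 by rw [hp1]; exact le_max_left _ _)
    exact ⟨s, ⟨p, hp, by rw [hp1]; exact le_max_right _ _, hs1⟩, hs2⟩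

/-- continuity -/
lemma phi_cont (hA : IsAronszajn K A) :
    letI := trOrder (an := an) (D := D) hd ho
    @Continuous _ _ (branchTop K (Tr o D an d)) (coneTop K)
      (fun b : Branches K (Tr o D an d) => Phi b.1) := by
  letI := trOrder (an := an) (D := D) hd ho
  letI := branchTop K (Tr o D an d)
  refine continuous_generateFrom_iff.2 ?_
  rintro U ⟨α, s, rfl⟩
  set U : Set (K → Bool) := {g | ∀ ξ : Iio α, g ξ = s ξ} with hU
  have h1 : (fun b : Branches K (Tr o D an d) => Phi b.1) ⁻¹' U =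
      ⋃ t ∈ {t : Tr o D an d | {b : Branches K (Tr o D an d) | t ∈ b.1} ⊆
        (fun b : Branches K (Tr o D an d) => Phi b.1) ⁻¹' U},
        {b : Branches K (Tr o D an d) | t ∈ b.1} := by
    ext b
    simp only [mem_iUnion]
    constructor
    · intro hb
      obtain ⟨p, hp, η, hη, hne⟩ := br_unb hd ho hA b.2 α
      refine ⟨p, ?_, hp⟩
      intro b' hb' ξ
      obtain ⟨x, hx⟩ := Option.ne_none_iff_exists'.1 hne
      have hξ : ξ.1 < η := lt_trans ξ.2 hη
      have e1 := phi_iff hd ho b.2 hp hx hξ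
      have e2 := phi_iff hd ho b'.2 hb' hx hξ
      have e3 : Phi b.1 ξ = s ξ := hb ξ
      show Phi b'.1 ξ = s ξ
      rw [← e3, Bool.eq_iff_iff, e1, e2]
    · rintro ⟨t, ht, hbt⟩
      exact ht hbt
  rw [h1]
  exact isOpen_biUnion fun t _ => TopologicalSpace.isOpen_generateFrom_of_mem ⟨t, rfl⟩

end

end Pool.Agent.W5h13.SK
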