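import Pool.Agent.W5h13.SK.Defs

set_option autoImplicit false

/-! # Elementary facts about trees -/

namespace Pool.Agent.W5h13.SK

open Cardinal Set

universe u

variable {K : Type u} [LinearOrder K] [WellFoundedLT K]

lemma no_iso {α β : K} (h : α < β) (e : Iio β ≃o Iio α) : False := by
  let g : Iio β → Iio β := fun x => ⟨(e x).1, lt_trans (e x).2 h⟩
  have hg : StrictMono g := by
    intro x y hxy
    have := e.strictMono hxy
    exact this
  have h1 := hg.le_apply (x := ⟨α, h⟩)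
  have h2 : α ≤ (e ⟨α, h⟩).1 := h1
  exact absurd (e ⟨α, h⟩).2 (not_lt.2 h2)

lemma iio_inj {α β : K} (e : Nonempty (Iio α ≃o Iio β)) : α = β := by
  obtain ⟨e⟩ := e
  rcases lt_trichotomy α β with h | h | h
  · exact (no_iso h e.symm).elim
  · exact h
  · exact (no_iso h e).elim

/-- restriction of the isomorphism to the predecessors of a predecessor -/
def restrIso {T : Type u} [PartialOrder T] {t : T} {α : K} (e : Iio t ≃o Iio α) (s : Iio t) :
    Iio s.1 ≃o Iio (e s).1 where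
  toFun x := ⟨(e ⟨x.1, lt_trans (mem_Iio.1 x.2) s.2⟩).1, by
    have : (⟨x.1, lt_trans (mem_Iio.1 x.2) s.2⟩ : Iio t) < s := mem_Iio.1 x.2
    exact e.strictMono this⟩
  invFun y := ⟨(e.symm ⟨y.1, lt_trans (mem_Iio.1 y.2) (e s).2⟩).1, by
    have h : (⟨y.1, lt_trans (mem_Iio.1 y.2) (e s).2⟩ : Iio α) < e s := mem_Iio.1 y.2
    have h2 := e.symm.strictMono h
    rw [OrderIso.symm_apply_apply] at h2
    exact h2⟩
  left_inv x := by
    apply Subtype.ext
    simp
  right_inv y := by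
    apply Subtype.ext
    simp
  map_rel_iff' := by
    intro x y
    simp only [Equiv.coe_fn_mk, Subtype.mk_le_mk, Subtype.coe_le_coe]
    constructor
    · intro h
      have h' : e ⟨x.1, lt_trans (mem_Iio.1 x.2) s.2⟩ ≤ e ⟨y.1, lt_trans (mem_Iio.1 y.2) s.2⟩ := h
      rw [e.le_iff_le] at h'
      exact h'
    · intro h
      have h' : e ⟨x.1, lt_trans (mem_Iio.1 x.2) s.2⟩ ≤ e ⟨y.1, lt_trans (mem_Iio.1 y.2) s.2⟩ := by
        rw [e.le_iff_le]
        exact h
      exact h'

lemma level_restr {T : Type u} [PartialOrder T] {t : T} {α : K} (e : Iio t ≃o Iio α) (s : Iio t) :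
    s.1 ∈ Level T (e s).1 := ⟨restrIso e s⟩

lemma level_unique {T : Type u} [PartialOrder T] {t : T} {α β : K} (h1 : t ∈ Level T α)
    (h2 : t ∈ Level T β) : α = β := by
  obtain ⟨e1⟩ := h1
  obtain ⟨e2⟩ := h2
  exact iio_inj ⟨e1.symm.trans e2⟩

lemma level_lt {T : Type u} [PartialOrder T] {s t : T} {α β : K} (h : s < t) (hs : s ∈ Level T β)
    (ht : t ∈ Level T α) : β < α := by
  obtain ⟨e⟩ := ht
  have h1 := level_restr e ⟨s, h⟩
  rw [level_unique hs h1]
  exact (e ⟨s, h⟩).2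

lemma level_le {T : Type u} [PartialOrder T] {s t : T} {α β : K} (h : s ≤ t) (hs : s ∈ Level T β)
    (ht : t ∈ Level T α) : β ≤ α := by
  rcases h.lt_or_eq with h | rfl
  · exact (level_lt h hs ht).le
  · exact (level_unique hs ht).le

lemma exists_below {T : Type u} [PartialOrder T] {t : T} {α β : K} (ht : t ∈ Level T α)
    (h : β ≤ α) : ∃ s ≤ t, s ∈ Level T β := by
  rcases h.lt_or_eq with h | rfl
  · obtain ⟨e⟩ := ht
    refine ⟨(e.symm ⟨β, h⟩).1, (mem_Iio.1 (e.symm ⟨β, h⟩).2).le, ?_⟩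
    have := level_restr e (e.symm ⟨β, h⟩)
    rwa [OrderIso.apply_symm_apply] at this
  · exact ⟨t, le_rfl, ht⟩

lemma comparable {T : Type u} [PartialOrder T] {a b t : T} {α : K} (ht : t ∈ Level T α)
    (ha : a ≤ t) (hb : b ≤ t) : a ≤ b ∨ b ≤ a := by
  rcases ha.lt_or_eq with ha | rfl
  · rcases hb.lt_or_eq with hb | rfl
    · obtain ⟨e⟩ := ht
      rcases le_total (e ⟨a, ha⟩) (e ⟨b, hb⟩) with h | h
      · left
        rw [e.le_iff_le] at h
        exact h
      · right
        rw [e.le_iff_le] at h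
        exact h
    · exact Or.inl ha.le
  · exact Or.inr hb

lemma le_of_level {T : Type u} [PartialOrder T] {a b t : T} {α β γ : K} (ht : t ∈ Level T α)
    (ha : a ≤ t) (hb : b ≤ t) (h1 : a ∈ Level T β) (h2 : b ∈ Level T γ) (h : β ≤ γ) : a ≤ b := by
  rcases comparable ht ha hb with h' | h'
  · exact h'
  · rcases h'.lt_or_eq with h'' | rfl
    · exact absurd (level_lt h'' h2 h1) (not_lt.2 h)
    · exact le_rfl

lemma eq_of_level {T : Type u} [PartialOrder T] {a b t : T} {α β : K} (ht : t ∈ Level T α)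
    (ha : a ≤ t) (hb : b ≤ t) (h1 : a ∈ Level T β) (h2 : b ∈ Level T β) : a = b :=
  le_antisymm (le_of_level ht ha hb h1 h2 le_rfl) (le_of_level ht hb ha h2 h1 le_rfl)

end Pool.Agent.W5h13.SK
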